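import Pool.Agent.helper44.EX.Spec

set_option autoImplicit false

open Complex Metric Set Filter Topology MeasureTheory Pool.Agent.helper98.ILF

noncomputable section

namespace EX

/-- the bound on a contraction fixing the origin -/
theorem ONE_bd (k x y : ℝ) (hk0 : 0 ≤ k) (hk1 : k < 1) (hx0 : 0 ≤ x) (hx1 : x < 1) (hy0 : 0 ≤ y)
    (hy1 : y < 1) (h : LL y ≤ LL k * LL x) : y ≤ (k + x) / (1 + k * x) := by
  have h1 : 0 < 1 - k := by linarith
  have h2 : 0 < 1 - x := by linarith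
  have h3 : 0 < 1 - y := by linarith
  unfold LL at h
  rw [div_mul_div_comm, div_le_div_iff₀ h3 (mul_pos h1 h2)] at h
  rw [le_div_iff₀ (by positivity)]
  nlinarith

theorem ONE_LLmono (x y : ℝ) (hxy : x ≤ y) (hy : y < 1) : LL x ≤ LL y := by
  unfold LL
  rw [div_le_div_iff₀ (by linarith) (by linarith)]
  nlinarith

theorem ONE_LLpos (x : ℝ) (h0 : 0 ≤ x) (h1 : x < 1) : 0 < LL x := by
  unfold LL
  apply div_pos <;> linarith

theorem ONE_k (δ : ℝ) (h0 : 0 ≤ δ) (h1 : δ < 1) :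
    0 ≤ 2 * Real.sqrt δ / (1 + δ) ∧ 2 * Real.sqrt δ / (1 + δ) < 1 := by
  have hs := Real.sq_sqrt h0
  have hs0 := Real.sqrt_nonneg δ
  have hs1 : Real.sqrt δ < 1 := by
    rw [Real.sqrt_lt' one_pos]; linarith
  constructor
  · positivity
  · rw [div_lt_one (by linarith)]
    nlinarith [sq_nonneg (1 - Real.sqrt δ), mul_pos (sub_pos.2 hs1) (sub_pos.2 hs1)]

theorem ONE_fin (k x : ℝ) (hk0 : 0 ≤ k) (hk1 : k < 1) (hx0 : 0 ≤ x) (hx : x ≤ 1 / 2) :
    x * ((k + x) / (1 + k * x)) ≤ 1 / 2 * ((k + 1 / 2) / (1 + k / 2)) := by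
  have h1 : (k + x) / (1 + k * x) ≤ (k + 1 / 2) / (1 + k / 2) := by
    rw [div_le_div_iff₀ (by positivity) (by positivity)]
    have h2 : 0 ≤ (1 - k ^ 2) * (1 / 2 - x) := mul_nonneg (by nlinarith) (by linarith)
    nlinarith
  exact mul_le_mul hx h1 (by positivity) (by norm_num)

theorem ONE (hM : MOB_stmt) (hR : RHO_stmt) (hS : SPK_stmt) (hO : OM0_stmt) : ONE_stmt := by
  intro δ hδ0 hδ1
  obtain ⟨hk0, hk1⟩ := ONE_k δ hδ0 hδ1
  set k : ℝ := 2 * Real.sqrt δ / (1 + δ) with hk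
  refine ⟨1 / 2 * ((k + 1 / 2) / (1 + k / 2)), by positivity, ?_, ?_⟩
  · have : (k + 1 / 2) / (1 + k / 2) < 1 := by
      rw [div_lt_one (by positivity)]; linarith
    linarith
  intro θ hθ z hz w hw hzw
  have hθz : θ z ∈ ball (0 : ℂ) 1 := hθ.mt hz
  have hθzn : -θ z ∈ ball (0 : ℂ) 1 := by
    rw [mem_ball_zero_iff] at hθz ⊢; rwa [norm_neg]
  have hzn : -z ∈ ball (0 : ℂ) 1 := by
    rw [mem_ball_zero_iff] at hz ⊢; rwa [norm_neg]
  obtain ⟨-, hdz, hmz, -, hz0, -, hzi, hzr, -⟩ := hM z hz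
  obtain ⟨-, -, hmzn, -, -, -, -, -, -⟩ := hM (-z) hzn
  obtain ⟨-, -, -, -, -, -, -, hθr, -⟩ := hM (θ z) hθz
  obtain ⟨-, hdθ, hmθ, hiθ, -, hθ0, -, -, -⟩ := hM (-θ z) hθzn
  set η : ℂ → ℂ := fun u => tau (-θ z) (θ (tau z u)) with hη
  have hηd : DifferentiableOn ℂ η (ball 0 1) :=
    hdθ.comp (hθ.hol.comp hdz hmz) (hθ.mt.comp hmz)
  have hηm : MapsTo η (ball 0 1) (ball 0 1) := fun u hu => hmθ (hθ.mt (hmz hu))
  have hη0 : η 0 = 0 := by
    simp only [hη, hz0]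
    rw [neg_neg] at hθ0
    exact hθ0
  obtain ⟨b, hb, hbn, hbr⟩ := hθ.om z hz
  have hb'n : ‖tau (-θ z) b‖ ≤ δ := by rw [hθr b hb]; exact hbr
  have hb'o : tau (-θ z) b ∉ η '' ball 0 1 := by
    rintro ⟨u, hu, hub⟩
    have := hiθ (hθ.mt (hmz hu)) hb hub
    exact hbn ⟨tau z u, hmz hu, this⟩
  have hder := hO δ η (tau (-θ z) b) hδ0 hδ1 hηd hηm hη0 hb'n hb'o
  rw [← hk] at hder
  set h : ℂ → ℂ := dslope η 0 with hh
  have hhd : DifferentiableOn ℂ h (ball 0 1) :=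
    (Complex.differentiableOn_dslope (ball_mem_nhds 0 one_pos)).2 hηd
  have hhn : ∀ u ∈ ball (0 : ℂ) 1, ‖h u‖ ≤ 1 := by
    intro u hu
    have := Complex.norm_dslope_le_div_of_mapsTo_ball hηd (by rw [hη0]; exact hηm.mono_right ball_subset_closedBall) hu
    simpa using this
  have hh0 : ‖h 0‖ ≤ k := by rw [hh, dslope_same]; exact hder
  have hmain : ∀ u ∈ ball (0 : ℂ) 1, ‖h u‖ ≤ (k + ‖u‖) / (1 + k * ‖u‖) := by
    intro u hu
    have hu1 : ‖u‖ < 1 := mem_ball_zero_iff.1 hu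
    have h0D : (0 : ℂ) ∈ ball (0 : ℂ) 1 := mem_ball_self one_pos
    have hr : ∀ r : ℝ, 0 < r → r < 1 → r * ‖h u‖ ≤ (k + ‖u‖) / (1 + k * ‖u‖) := by
      intro r hr0 hr1
      have hbd : ∀ v ∈ ball (0 : ℂ) 1, ‖(r : ℂ) * h v‖ < 1 := by
        intro v hv
        rw [norm_mul, Complex.norm_real, Real.norm_eq_abs, abs_of_pos hr0]
        nlinarith [hhn v hv, norm_nonneg (h v)]
      have hSr := (hS (fun v => (r : ℂ) * h v) (hhd.const_mul _) (fun v hv => by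
        rw [mem_ball_zero_iff]; exact hbd v hv)).1 0 h0D u hu
      rw [(hR.2.1 u).1] at hSr
      have ha : (r : ℂ) * h 0 ∈ ball (0 : ℂ) 1 := by
        rw [mem_ball_zero_iff]; exact hbd 0 h0D
      have hb' : (r : ℂ) * h u ∈ ball (0 : ℂ) 1 := by
        rw [mem_ball_zero_iff]; exact hbd u hu
      have htri := hR.2.2.2 0 h0D _ ha _ hb'
      rw [(hR.2.1 _).1, (hR.2.1 _).1] at htri
      have hra : ‖(r : ℂ) * h 0‖ ≤ k := by
        rw [norm_mul, Complex.norm_real, Real.norm_eq_abs, abs_of_pos hr0]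
        nlinarith [norm_nonneg (h 0)]
      have h1 : LL ‖(r : ℂ) * h 0‖ ≤ LL k := ONE_LLmono _ _ hra hk1
      have h2 : LL (rho ((r : ℂ) * h 0) ((r : ℂ) * h u)) ≤ LL ‖u‖ := ONE_LLmono _ _ hSr hu1
      have h3 : LL ‖(r : ℂ) * h u‖ ≤ LL k * LL ‖u‖ :=
        htri.trans (mul_le_mul h1 h2
          (ONE_LLpos _ (hR.1 _ ha _ hb').1 (hR.1 _ ha _ hb').2.1).le (ONE_LLpos k hk0 hk1).le)
      have h4 := ONE_bd k ‖u‖ ‖(r : ℂ) * h u‖ hk0 hk1 (norm_nonneg _) hu1 (norm_nonneg _)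
        (hbd u hu) h3
      rwa [norm_mul, Complex.norm_real, Real.norm_eq_abs, abs_of_pos hr0] at h4
    by_contra hcon
    push Not at hcon
    set B : ℝ := (k + ‖u‖) / (1 + k * ‖u‖) with hB
    have hB0 : 0 ≤ B := by positivity
    have hhu : 0 < ‖h u‖ := lt_of_le_of_lt hB0 hcon
    have h5 : B / ‖h u‖ < 1 := by rwa [div_lt_one hhu]
    have h6 : 0 ≤ B / ‖h u‖ := by positivity
    have h7 := hr ((1 + B / ‖h u‖) / 2) (by linarith) (by linarith)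
    have h8 : (1 + B / ‖h u‖) / 2 * ‖h u‖ = (‖h u‖ + B) / 2 := by field_simp
    rw [h8] at h7
    linarith
  have hu : tau (-z) w ∈ ball (0 : ℂ) 1 := hmzn hw
  have hun : ‖tau (-z) w‖ = rho z w := hzr w hw
  have hηu : ‖η (tau (-z) w)‖ = rho (θ z) (θ w) := by
    simp only [hη]
    rw [(hzi w hw).2]
    exact hθr _ (hθ.mt hw)
  have hprod : η (tau (-z) w) = tau (-z) w * h (tau (-z) w) := by
    have := sub_smul_dslope η 0 (tau (-z) w)
    rw [sub_zero, hη0, sub_zero, smul_eq_mul] at this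
    exact this.symm
  rw [← hηu, hprod, norm_mul, hun]
  have h9 := hmain _ hu
  rw [hun] at h9
  have h10 : 0 ≤ rho z w := (hR.1 z hz w hw).1
  exact (mul_le_mul_of_nonneg_left h9 h10).trans (ONE_fin k _ hk0 hk1 h10 hzw)

end EX
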